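import Pool.Agent.helper74.NL.Spec

/-! # nl:CTH (helper70): the Cauchy transform is holomorphic off the support -/

set_option autoImplicit false

open Complex Metric Set Filter Topology MeasureTheory MPS Pool.Agent.helper98.ILF

noncomputable section

namespace NLF

theorem CTH_bound (C : ℝ) : Integrable ((ball (0 : ℂ) 4).indicator (fun _ => C)) := by
  have h1 : (volume : Measure ℂ) (ball (0 : ℂ) 4) ≠ ⊤ := measure_ball_lt_top.ne
  have h2 : ‖C‖ₑ ≠ ⊤ := enorm_ne_top
  have h3 : IntegrableOn (fun _ : ℂ => C) (ball (0 : ℂ) 4) := integrableOn_const h1 h2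
  exact h3.integrable_indicator measurableSet_ball

theorem CTH : CTH_stmt := by
  intro μ U hm hb hs hU hz w hw
  obtain ⟨ε, hε, hεU⟩ := Metric.isOpen_iff.1 hU w hw
  obtain ⟨r, hr⟩ : ∃ r : ℝ, r = ε / 2 := ⟨_, rfl⟩
  have hr0 : 0 < r := by rw [hr]; linarith
  have hfar : ∀ z : ℂ, μ z ≠ 0 → 2 * r ≤ ‖z - w‖ := by
    intro z hμ
    by_contra hcon
    push Not at hcon
    apply hμ
    apply hz z
    apply hεU
    rw [mem_ball, dist_eq_norm]
    rw [hr] at hcon
    linarith
  have hfar2 : ∀ z : ℂ, μ z ≠ 0 → ∀ b ∈ ball w r, r ≤ ‖z - b‖ := by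
    intro z hμ b hb'
    rw [mem_ball, dist_eq_norm] at hb'
    have h1 := hfar z hμ
    have h2 : ‖z - w‖ ≤ ‖z - b‖ + ‖b - w‖ := by
      have : z - w = (z - b) + (b - w) := by ring
      rw [this]; exact norm_add_le _ _
    linarith
  have hF_meas : ∀ b : ℂ, AEStronglyMeasurable (fun z : ℂ => μ z / (z - b)) volume := by
    intro b
    exact (hm.div (measurable_id.sub_const b)).aestronglyMeasurable
  have hF'_meas : AEStronglyMeasurable (fun z : ℂ => μ z / (z - w) ^ 2) volume := by
    exact (hm.div ((measurable_id.sub_const w).pow_const 2)).aestronglyMeasurable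
  have hF_int : Integrable (fun z : ℂ => μ z / (z - w)) := by
    refine Integrable.mono' (CTH_bound (1 / (2 * r))) (hF_meas w) (Eventually.of_forall ?_)
    intro z
    by_cases hμ : μ z = 0
    · rw [hμ, zero_div, norm_zero]
      exact indicator_nonneg (fun _ _ => by positivity) z
    · have h4 : z ∈ ball (0 : ℂ) 4 := by
        rw [mem_ball, dist_eq_norm, sub_zero]; exact hs z hμ
      rw [indicator_of_mem h4, norm_div]
      exact div_le_div₀ zero_le_one (hb z) (by linarith) (hfar z hμ)
  have h_bound : ∀ᵐ z : ℂ, ∀ b ∈ ball w r, ‖μ z / (z - b) ^ 2‖ ≤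
      (ball (0 : ℂ) 4).indicator (fun _ => 1 / r ^ 2) z := by
    refine Eventually.of_forall ?_
    intro z b hb'
    by_cases hμ : μ z = 0
    · rw [hμ, zero_div, norm_zero]
      exact indicator_nonneg (fun _ _ => by positivity) z
    · have h4 : z ∈ ball (0 : ℂ) 4 := by
        rw [mem_ball, dist_eq_norm, sub_zero]; exact hs z hμ
      rw [indicator_of_mem h4, norm_div, norm_pow]
      exact div_le_div₀ zero_le_one (hb z) (by positivity)
        (pow_le_pow_left₀ hr0.le (hfar2 z hμ b hb') 2)
  have h_diff : ∀ᵐ z : ℂ, ∀ b ∈ ball w r,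
      HasDerivAt (fun b => μ z / (z - b)) (μ z / (z - b) ^ 2) b := by
    refine Eventually.of_forall ?_
    intro z b hb'
    by_cases hμ : μ z = 0
    · rw [hμ]
      simp only [zero_div]
      exact hasDerivAt_const b 0
    · have h5 : z - b ≠ 0 := by
        intro h
        have := hfar2 z hμ b hb'
        rw [h, norm_zero] at this
        linarith
      have h6 : HasDerivAt (fun b : ℂ => z - b) (-1) b := (hasDerivAt_id b).const_sub z
      have h7 := (hasDerivAt_const b (μ z)).div h6 h5
      have h8 : (0 * (z - b) - μ z * -1) / (z - b) ^ 2 = μ z / (z - b) ^ 2 := by ring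
      rw [h8] at h7
      exact h7
  have h := hasDerivAt_integral_of_dominated_loc_of_deriv_le (μ := volume)
    (F := fun b z => μ z / (z - b)) (F' := fun b z => μ z / (z - b) ^ 2)
    (ball_mem_nhds w hr0) (Eventually.of_forall hF_meas) hF_int hF'_meas h_bound
    (CTH_bound (1 / r ^ 2)) h_diff
  exact h.2.differentiableAt.differentiableWithinAt

end NLF
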