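import Pool.Agent.helper74.NL.Spec
import Pool.Agent.helper64.ILF.Region98

/-! # nl:LFI (helper70): invariant line fields are `LF` -/

set_option autoImplicit false

open Complex Metric Set Filter Topology MeasureTheory MPS Pool.Agent.helper98.ILF

noncomputable section

namespace NLF

theorem LFI : LFI_stmt := by
  intro n c μ hn h
  have hmem := Pool.Agent.helper64.ILF98.posArea_subset hn
    (Pool.Agent.helper64.ILF98.lineField_mem ⟨μ, h⟩)
  obtain ⟨hM, hH⟩ := hmem
  have hc2 : ‖c‖ ≤ 2 := by
    have h1 := Pool.Agent.LeadMultibrot.norm_pow_le_two hn hM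
    by_contra hcon
    push Not at hcon
    have h2 : ‖c‖ ^ 1 ≤ ‖c‖ ^ (n - 1) := pow_le_pow_right₀ (by linarith) (by omega)
    rw [pow_one] at h2
    linarith
  obtain ⟨hmeas, hone, hpos, hJ, hinv⟩ := h
  have hder : ∀ z : ℂ, deriv (fun z : ℂ => z ^ n + c) z = fd n z := by
    intro z
    rw [deriv_add_const]
    simp [fd]
  have hsupp : ∀ z, μ z ≠ 0 → ‖z‖ < 4 := by
    intro z hz
    have h1 : z ∈ frontier (filled n c) := juliaSet_subset hn c (hJ hz)
    have h2 : z ∈ filled n c := (isClosed_filled n c).frontier_subset h1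
    by_contra hcon
    push Not at hcon
    have h3 := growth hn (c := c) (z := z) (by linarith)
    have h4 := h2 1
    rw [Function.iterate_one] at h4
    have h5 : ‖z ^ n + c‖ ≤ 2 + ‖c‖ := h4
    linarith
  refine ⟨by linarith, ⟨hmeas, ?_, hsupp, fun z hz => hJ hz, ?_⟩, hpos, hH⟩
  · intro z
    by_cases hz : μ z = 0
    · rw [hz, norm_zero]; exact zero_le_one
    · exact (hone z hz).le
  · filter_upwards [hinv] with z hz
    rw [hder z] at hz
    exact hz

end NLF
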