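import Pool.Agent.helper74.NL.Spec

/-! # nl:LIMK (helper70): the discs shrink -/

set_option autoImplicit false

open Complex Metric Set Filter Topology MeasureTheory MPS Pool.Agent.helper98.ILF

noncomputable section

namespace NLF

theorem LIMK_er {k : ℕ} [NeZero k] (n : ℕ) (c : ℂ) (b g : ZMod k → ℂ) (h : Exact n b g) (z : ℂ) :
    er n c b g z = (∑ i, g i) / (z - c) := by
  unfold er
  have h1 : ∀ i, g (i + 1) - g i / fd n (b i) + fdd n (b i) / fd n (b i) ^ 2 = 0 := by
    intro i
    rw [h i]; ring
  have h2 : ∑ i, (g i / fd n (b i) - fdd n (b i) / fd n (b i) ^ 2) = ∑ i, g i := by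
    rw [← Equiv.sum_comp (Equiv.addRight (1 : ZMod k)) g]
    refine Finset.sum_congr rfl (fun i _ => ?_)
    rw [Equiv.coe_addRight, h i]
  rw [h2]
  simp only [h1, zero_div, Finset.sum_const_zero, zero_add]

theorem LIMK (hCTB : CTB_stmt) : LIMK_stmt := by
  intro n k _ c b g μ r hn hc hμ hr hE
  obtain ⟨hint, -, -, -⟩ := hCTB μ hμ.meas hμ.bd hμ.supp
  have hf : ∀ z, μ z * er n c b g z = (∑ i, g i) * (μ z / (z - c)) := by
    intro z
    rw [LIMK_er n c b g hE z]; ring
  have hfi : Integrable (fun z => μ z * er n c b g z) := by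
    have h1 : (fun z => μ z * er n c b g z) = fun z => (∑ i, g i) * (μ z / (z - c)) := funext hf
    rw [h1]
    exact (hint c).const_mul _
  have hval : ∫ z, μ z * er n c b g z = (∑ i, g i) * CT μ c := by
    have h1 : (fun z => μ z * er n c b g z) = fun z => (∑ i, g i) * (μ z / (z - c)) := funext hf
    rw [h1, integral_const_mul]
    rfl
  rw [← hval]
  have hKm : ∀ s : ℝ, MeasurableSet (KK b (fun i => s * r i)) := by
    intro s
    exact (isOpen_iUnion fun i => isOpen_ball).measurableSet.compl
  have hind : ∀ s : ℝ, ∫ z in KK b (fun i => s * r i), μ z * er n c b g z =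
      ∫ z, (KK b (fun i => s * r i)).indicator (fun z => μ z * er n c b g z) z := by
    intro s
    rw [integral_indicator (hKm s)]
  simp only [hind]
  refine tendsto_integral_filter_of_dominated_convergence
    (fun z => ‖μ z * er n c b g z‖) ?_ ?_ hfi.norm ?_
  · exact Eventually.of_forall fun s => hfi.aestronglyMeasurable.indicator (hKm s)
  · refine Eventually.of_forall fun s => Eventually.of_forall fun z => ?_
    exact norm_indicator_le_norm_self _ _
  · have hnull : volume (Set.range b) = 0 := (Set.finite_range b).measure_zero volume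
    have hae : ∀ᵐ z : ℂ, z ∉ Set.range b := measure_eq_zero_iff_ae_notMem.1 hnull
    filter_upwards [hae] with z hz
    have hev : ∀ᶠ s : ℝ in 𝓝[>] 0, ∀ i, s * r i ≤ dist z (b i) := by
      rw [eventually_all]
      intro i
      have hpos : 0 < dist z (b i) := by
        rw [dist_pos]
        intro h
        exact hz ⟨i, h.symm⟩
      have ht : Tendsto (fun s : ℝ => s * r i) (𝓝[>] 0) (𝓝 0) := by
        have hc1 : Continuous (fun s : ℝ => s * r i) := by fun_prop
        have := (hc1.tendsto 0).mono_left (nhdsWithin_le_nhds (s := Ioi (0 : ℝ)))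
        rwa [zero_mul] at this
      filter_upwards [ht.eventually_lt_const hpos] with s hs
      exact hs.le
    refine tendsto_const_nhds.congr' ?_
    filter_upwards [hev] with s hs
    have hzK : z ∈ KK b (fun i => s * r i) := by
      unfold KK
      rw [mem_compl_iff, mem_iUnion]
      rintro ⟨i, hi⟩
      rw [mem_ball] at hi
      exact absurd (hs i) (not_le.2 hi)
    rw [indicator_of_mem hzK]

end NLF
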